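import Pool.Agent.Y392.PK.Pet

/-!
# No odd number is a universal multiplier for faithful circuit covers

Question Q1 asks for a positive integer `k` such that for all bridgeless graphs all admissible
eulerian weights with values in `k ℤ_{≥0}` have a faithful circuit cover. Every such `k` is even; for
odd `k` every graph that contains a subdivision of the Petersen graph is a counterexample.

Definitions: `MGraph V E` (finite graph with loops and parallel edges, `ends e` is the pair of the
ends of the edge `e`) and `MGraph.IsCircuit` are in `Pool/Agent/H126R2/CDC/Defs.lean`. `cut G X`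
(edges with exactly one end in `X`), `Eulerian G w` (every cut has even weight), `Admissible G w`
(in every cut every edge has at most the weight of the others) and `Subdiv G` (a subdivision of the
Petersen graph in `G`) are in `Pool/Agent/Y392/PK/Sub.lean`, `HasCover G w` (faithful circuit cover)
in `Pool/Agent/Y392/PK/NoCover.lean`, `petG` (the Petersen graph) and `PropertyP G k` in
`Pool/Agent/Y392/PK/Pet.lean`.
-/

set_option autoImplicit false

namespace Pool.Agent.Results.MP_48d738_co.NoOddMultiplier

open Pool.Agent.H126R2.CDC (MGraph)
open Pool.Agent.Y392.PK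

/-- no cut of `G` consists of exactly one edge -/
def Bridgeless {V E : Type} [Fintype V] [DecidableEq V] [Fintype E] [DecidableEq E]
    (G : MGraph V E) : Prop := ∀ X : Finset V, (cut G X).card ≠ 1

/-- `k` has the property of Q1 -/
def Universal (k : ℕ) : Prop :=
  0 < k ∧ ∀ (V E : Type) [Fintype V] [DecidableEq V] [Fintype E] [DecidableEq E] (G : MGraph V E),
    Bridgeless G → PropertyP G k

/-- (1) Every universal multiplier is even, and its multiples are universal multipliers.
(2) For odd `k` every graph which contains a subdivision of the Petersen graph has an admissible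
eulerian weight with values in `{0, k, 2 k}` without a faithful circuit cover.
(3) The Petersen graph (all cuts have at least three edges) has such a weight with values in
`{k, 2 k}`. -/
theorem result :
    (∀ k, Universal k → Even k ∧ ∀ m, 0 < m → Universal (k * m)) ∧
    (∀ k, Odd k → ∀ (V E : Type) [Fintype V] [DecidableEq V] [Fintype E] [DecidableEq E]
      (G : MGraph V E), Nonempty (Subdiv G) → ∃ w : E → ℕ, (∀ e, w e = 0 ∨ w e = k ∨ w e = 2 * k) ∧
        Eulerian G w ∧ Admissible G w ∧ ¬ HasCover G w) ∧
    (∀ X : Finset (Fin 10), X.Nonempty → X ≠ Finset.univ → 3 ≤ (cut petG X).card) ∧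
    ∀ k, Odd k → ∃ w : Fin 15 → ℕ, (∀ e, w e = k ∨ w e = 2 * k) ∧
      Eulerian petG w ∧ Admissible petG w ∧ ¬ HasCover petG w := by
  have hwt : ∀ k : Fin 15, wt k = 1 ∨ wt k = 2 := by decide +kernel
  have hcut : ∀ X : Finset (Fin 10), X.Nonempty → X ≠ Finset.univ → 3 ≤ (cut petG X).card :=
    pet_three
  have hb : Bridgeless petG := by
    intro X
    rcases X.eq_empty_or_nonempty with rfl | h1
    · have : cut petG ∅ = ∅ := by
        apply Finset.eq_empty_of_forall_notMem
        intro e he
        rw [mem_cut petG ∅ e (pa e) (pb e) rfl] at he
        simp at he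
      rw [this]; simp
    · by_cases h2 : X = Finset.univ
      · have : cut petG X = ∅ := by
          apply Finset.eq_empty_of_forall_notMem
          intro e he
          rw [mem_cut petG X e (pa e) (pb e) rfl, h2] at he
          simp at he
        rw [this]; simp
      · have := hcut X h1 h2
        omega
  refine ⟨fun k hk => ⟨?_, fun m hm => ⟨Nat.mul_pos hk.1 hm, ?_⟩⟩, ?_, hcut, ?_⟩
  · by_contra h
    rw [Nat.not_even_iff_odd] at h
    exact not_P petG petS k h (hk.2 _ _ petG hb)
  · intro V E _ _ _ _ G hG
    exact P_mul G k m (hk.2 V E G hG)
  · rintro k hk V E _ _ _ _ G ⟨S⟩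
    refine ⟨S.weight k, fun e => ?_, eulerian G S k, admissible G S k, no_cover S k hk⟩
    by_cases h : ∃ j, e ∈ S.P j
    · obtain ⟨j, hj⟩ := h
      rw [S.weight_of_mem k hj]
      rcases hwt j with h1 | h1 <;> rw [h1]
      · right; left; ring
      · right; right; ring
    · left
      exact S.weight_of_not_mem k (fun j hj => h ⟨j, hj⟩)
  · intro k hk
    refine ⟨petS.weight k, fun e => ?_, eulerian petG petS k, admissible petG petS k,
      no_cover petS k hk⟩
    have he : e ∈ petS.P e := (petS.mem_P e e).2 ⟨0, Nat.one_pos, rfl⟩
    rw [petS.weight_of_mem k he]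
    rcases hwt e with h1 | h1 <;> rw [h1]
    · left; ring
    · right; ring

end Pool.Agent.Results.MP_48d738_co.NoOddMultiplier
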